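import Pool.Agent.H.MP_79ff05_co.B

set_option autoImplicit false
open Finset
open scoped Classical

namespace Pool.Agent.Results.MP_79ff05_co.Yes

/-- The largest number of copies of `K_s` in a `K_t`-free graph with exactly `m` edges. -/
def IsMex (s t m M : ℕ) : Prop :=
  IsGreatest {k : ℕ | ∃ (N : ℕ) (H : SimpleGraph (Fin N)), #H.edgeFinset = m ∧ H.CliqueFree t ∧
    #(H.cliqueFinset s) = k} M

open Pool.Agent.H.MP_79ff05_co in
theorem result (r s : ℕ) (hs : 3 ≤ s) (hr : s ≤ r) (ε : ℝ) (hε : 0 < ε) :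
    ∃ δ : ℝ, 0 < δ ∧ ∃ m₀ : ℕ, ∀ m : ℕ, m₀ ≤ m → (∃ M, IsMex s (r + 1) m M) ∧
      ∀ (M N : ℕ) (G : SimpleGraph (Fin N)), IsMex s (r + 1) m M → #G.edgeFinset = m →
        (M : ℝ) + ε * (m : ℝ) ^ ((s : ℝ) / 2) ≤ #(G.cliqueFinset s) →
        δ * (m : ℝ) ^ (((r : ℝ) + 1) / 2) ≤ #(G.cliqueFinset (r + 1)) := by
  obtain ⟨s, rfl⟩ := Nat.exists_eq_add_of_le' hs
  have r2 : 2 ≤ r := by omega
  have two : ∀ {N : ℕ} (H : SimpleGraph (Fin N)), #(cl H 2) = 2 * #H.edgeFinset := fun H => by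
    rw [cl_deg, ← SimpleGraph.sum_degrees_eq_twice_card_edges]
  have cc : ∀ {N : ℕ} (H : SimpleGraph (Fin N)) (a : ℕ),
      #(cl H a) = a.factorial * #(H.cliqueFinset a) := fun H a => by
    rw [cl_card, Subsingleton.elim (fun a b => Classical.propDecidable (a = b))
      (instDecidableEqFin _)]
  have emp : ∀ {N : ℕ} {_ : Fintype {v : Fin N // False}} (H : SimpleGraph {v : Fin N // False}),
      cl H (s + 1 + 2) = ∅ := fun H => eq_empty_of_forall_notMem fun x _ => (x 0).2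
  have tr : ∀ (m : ℕ) (W : Type) [Fintype W] (H : SimpleGraph W), cl H (r + 1) = ∅ →
      #(cl H 2) = 2 * m → ∃ k ∈ {k : ℕ | ∃ (N : ℕ) (H : SimpleGraph (Fin N)), #H.edgeFinset = m ∧
        H.CliqueFree (r + 1) ∧ #(H.cliqueFinset (s + 3)) = k}, #(cl H (s + 3)) = (s + 3).factorial * k := by
    intro m W _ H a b
    have e : ∀ a, #(cl (H.comap (Fintype.equivFin W).symm) a) = #(cl H a) := fun a =>
      card_equiv (Equiv.piCongrRight fun _ => (Fintype.equivFin W).symm) fun x => by simp [cl]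
    refine ⟨_, ⟨_, H.comap (Fintype.equivFin W).symm, ?_, ?_, rfl⟩, ?_⟩
    · have := two (H.comap (Fintype.equivFin W).symm)
      rw [e, b] at this
      exact (Nat.eq_of_mul_eq_mul_left two_pos this).symm
    · have := cc (H.comap (Fintype.equivFin W).symm) (r + 1)
      rw [e, a, card_empty, eq_comm, mul_eq_zero, card_eq_zero] at this
      exact SimpleGraph.cliqueFinset_eq_empty_iff.1 (this.resolve_left (Nat.factorial_ne_zero _))
    · rw [← e, cc]
  obtain ⟨δ, δ0, m₀, h⟩ := main (s := s) r2 (ε := min 1 (ε / 2 / 2 ^ (s + 3))) (by positivity)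
    (min_le_left _ _)
  have sq : ∀ m a : ℕ, (m : ℝ) ^ ((a : ℝ) / 2) = √m ^ a := fun m a => by
    rw [Real.sqrt_eq_rpow, ← Real.rpow_natCast, ← Real.rpow_mul (by positivity)]; ring_nf
  refine ⟨δ / (r + 1).factorial, by positivity, m₀, fun m hm => ⟨?_, fun M N G hM e hG => ?_⟩⟩
  · obtain ⟨U, _, K, a, b, -⟩ := pad (s := 0) r2 (⊥ : SimpleGraph Empty) (by
      ext x; exact (x 0).elim) m
    obtain ⟨k, hk, -⟩ := tr m U K a (by simpa [cl_two] using b)
    have bd : BddAbove {k : ℕ | ∃ (N : ℕ) (H : SimpleGraph (Fin N)), #H.edgeFinset = m ∧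
        H.CliqueFree (r + 1) ∧ #(H.cliqueFinset (s + 3)) = k} := by
      refine ⟨(s + 3) * ((2 * m) ^ (s + 1) * (2 * m)), ?_⟩
      rintro _ ⟨N, H, e, -, rfl⟩
      have := low H (fun _ => False) (s := s + 1) (2 * m : ℕ) (fun v _ => by
        rw [← e, ← two, cl_deg]
        exact_mod_cast single_le_sum (f := fun v => H.degree v) (fun _ _ => Nat.zero_le _)
          (mem_univ v)) (by positivity)
      rw [emp (H.comap _), two, e, cc, card_empty] at this
      norm_cast at this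
      rw [zero_add] at this
      exact le_trans (Nat.le_mul_of_pos_left _ (Nat.factorial_pos (s + 1 + 2))) this
    exact ⟨_, Nat.sSup_mem ⟨k, hk⟩ bd, fun _ h => le_csSup bd h⟩
  · have := h _ G m hm (by rw [two, e]) fun W _ H a b => by
      obtain ⟨k, hk, e⟩ := tr m W H a b
      have f1 : (1 : ℝ) ≤ (s + 3).factorial := by exact_mod_cast Nat.factorial_pos _
      have f2 : (k : ℝ) ≤ M := by exact_mod_cast hM.2 hk
      have f3 : √(2 * m) ≤ 2 * √m := Real.sqrt_le_iff.2 ⟨by positivity, by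
        rw [mul_pow, Real.sq_sqrt (by positivity)]; gcongr; norm_num⟩
      rw [sq] at hG
      calc _ ≤ ((s + 3).factorial * M : ℝ) + 2 * (ε / 2 / 2 ^ (s + 3)) * (2 * √m) ^ (s + 3) := by
            rw [e]; push_cast; gcongr; exact min_le_right _ _
        _ = (s + 3).factorial * M + 1 * (ε * √m ^ (s + 3)) := by rw [mul_pow]; field_simp
        _ ≤ (s + 3).factorial * (M + ε * √m ^ (s + 3)) := by rw [mul_add]; gcongr
        _ ≤ (s + 3).factorial * #(G.cliqueFinset (s + 3)) := by gcongr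
        _ = _ := by rw [cc, Nat.cast_mul]
    rw [← Nat.cast_add_one, sq, div_mul_eq_mul_div, div_le_iff₀ (by positivity)]
    calc _ ≤ δ * √(2 * m) ^ (r + 1) := by gcongr; linarith [(m.cast_nonneg : (0 : ℝ) ≤ m)]
      _ ≤ _ := this
      _ = _ := by rw [cc, Nat.cast_mul, mul_comm]

end Pool.Agent.Results.MP_79ff05_co.Yes
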